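import Pool.Agent.Lib.MP_afdd4d_co.K10.PS.Def

/-!
# The checks of the classes from 78
-/

namespace Pool.Agent.Lib.MP_afdd4d_co.K10.PS

open Pool.Agent.Lib.MP_afdd4d_co.K8

set_option maxRecDepth 100000
set_option exponentiation.threshold 10000000

theorem c3 : allN (fun c => D.okT (Nat.add 78 c)) 26 = true := by decide +kernel

end Pool.Agent.Lib.MP_afdd4d_co.K10.PS
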