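import Pool.Agent.Lib.MP_afdd4d_co.K8.PD.Def
import Pool.Agent.Lib.MP_afdd4d_co.K10.PS.T0
import Pool.Agent.Lib.MP_afdd4d_co.K10.PS.T1
import Pool.Agent.Lib.MP_afdd4d_co.K10.PS.T2
import Pool.Agent.Lib.MP_afdd4d_co.K10.PS.T3
import Pool.Agent.Lib.MP_afdd4d_co.K10.PS.T4
import Pool.Agent.Lib.MP_afdd4d_co.K10.PS.T5
import Pool.Agent.Lib.MP_afdd4d_co.K10.PS.T6
import Pool.Agent.Lib.MP_afdd4d_co.K10.PS.T7
import Pool.Agent.Lib.MP_afdd4d_co.K10.PS.T8
import Pool.Agent.Lib.MP_afdd4d_co.K10.PS.T9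
import Pool.Agent.Lib.MP_afdd4d_co.K10.PS.T10
import Pool.Agent.Lib.MP_afdd4d_co.K10.PS.T11

/-!
# The tables
-/

namespace Pool.Agent.Lib.MP_afdd4d_co.K10.PS

open Pool.Agent.Lib.MP_afdd4d_co.K8

set_option maxRecDepth 100000
set_option exponentiation.threshold 10000000

/-- The tables of the function of pairs. -/
noncomputable def D : PT where
  G := PD.G
  OP := 70368744177664
  tb := [l0, l1, l2, l3, l4, l5, l6, l7, l8, l9, l10, l11]

end Pool.Agent.Lib.MP_afdd4d_co.K10.PS
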