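import Pool.Agent.Lib.MP_afdd4d_co.K8.PD.Fin
import Pool.Agent.Lib.MP_afdd4d_co.K10.PS.C0
import Pool.Agent.Lib.MP_afdd4d_co.K10.PS.C1
import Pool.Agent.Lib.MP_afdd4d_co.K10.PS.C2
import Pool.Agent.Lib.MP_afdd4d_co.K10.PS.C3
import Pool.Agent.Lib.MP_afdd4d_co.K10.PS.C4
import Pool.Agent.Lib.MP_afdd4d_co.K10.PS.C5

/-!
# The conditions
-/

namespace Pool.Agent.Lib.MP_afdd4d_co.K10.PS

open Pool.Agent.Lib.MP_afdd4d_co.K8

set_option maxRecDepth 100000
set_option exponentiation.threshold 10000000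

theorem okT : ∀ c < 156, D.okT c = true := by
  intro k hk
  have h1 : k = 26 * (k / 26) + k % 26 := (Nat.div_add_mod k 26).symm
  have h2 : k % 26 < 26 := Nat.mod_lt _ (by norm_num)
  have h3 : k / 26 < 6 := by omega
  rw [h1]
  generalize k % 26 = j at h2
  generalize k / 26 = b at h3
  interval_cases b
  · exact allN_spec _ _ c0 j h2
  · exact allN_spec _ _ c1 j h2
  · exact allN_spec _ _ c2 j h2
  · exact allN_spec _ _ c3 j h2
  · exact allN_spec _ _ c4 j h2
  · exact allN_spec _ _ c5 j h2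

theorem ok : D.OK := ⟨PD.ok, by decide, by decide +kernel, okT⟩

end Pool.Agent.Lib.MP_afdd4d_co.K10.PS
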